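import Pool.Agent.Helper19_TP.Stmts2
import Pool.Agent.Helper67_TP.Base

/-!
# Lemma R: in the abstract calculus, `r ∘ J = 0` for all Jacobians `J` implies `r = 0`.
-/

namespace Pool.Agent.TP.H66

open Pool.Agent.TP

section cal
variable {B : Type} [AddCommGroup B] {br jo : B →+ B →+ B}

/-- the part of the calculus used here -/
structure Cal (br jo : B →+ B →+ B) : Prop where
  tors2 : ∀ x : B, 2 • x = 0 → x = 0
  tors3 : ∀ x : B, 3 • x = 0 → x = 0
  skew : ∀ x y, br x y + br y x = 0
  symm : ∀ x y, jo x y - jo y x = 0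
  sagle : ∀ a b c d, br (br a c) (br b d) = br (br (br a b) c) d + br (br (br b c) d) a
    + br (br (br c d) a) b + br (br (br d a) b) c
  m2 : ∀ a b c, br (jo a b) c = jo a (br b c) + jo (br a c) b
  m3 : ∀ x x' y y' z, jo (Jc br x y z) (br x' y') + jo (Jc br x y' z) (br x' y)
    + jo (Jc br x' y z) (br x y') + jo (Jc br x' y' z) (br x y) = 0
  m4 : ∀ a b c, jo (jo a b) c - jo a (jo b c) = 36 • br b (br a c) - 12 • Jc br a b c
  ann : ∀ r, (∀ x y z, jo r (Jc br x y z) = 0) → (∀ x y z, br r (Jc br x y z) = 0) → r = 0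

theorem sk (h : Cal br jo) (x y : B) : br x y = - br y x := by
  have := h.skew x y
  exact eq_neg_of_add_eq_zero_left this

theorem jsym (h : Cal br jo) (x y : B) : jo x y = jo y x := sub_eq_zero.1 (h.symm x y)

theorem sk2 (h : Cal br jo) (x y z : B) : br (br x y) z = - br (br y x) z := by
  rw [sk h x y, map_neg, AddMonoidHom.neg_apply]

theorem sk3 (h : Cal br jo) (x y z : B) : br x (br y z) = - br x (br z y) := by
  rw [sk h y z, map_neg]

theorem three (h : Cal br jo) {x : B} (hx : 3 • x = 0) : x = 0 := h.tors3 x hx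

theorem twelve (h : Cal br jo) {x : B} (hx : 12 • x = 0) : x = 0 := by
  apply h.tors2
  apply h.tors2
  apply h.tors3
  rw [smul_smul, smul_smul]
  exact hx

/-- Sagle's identity in Jacobian form -/
theorem sag (h : Cal br jo) (w x y z : B) :
    Jc br w x (br y z) + Jc br w y (br z x) + Jc br w z (br x y) = 2 • br w (Jc br x y z) := by
  unfold Jc
  simp only [map_add]
  have s1 := h.sagle w y x z
  have s2 := h.sagle w z y x
  have s3 := h.sagle w x z y
  have a1 := sk h w (br (br x y) z)
  have a2 := sk h w (br (br y z) x)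
  have a3 := sk h w (br (br z x) y)
  have b1 : br (br x (br y z)) w = - br (br (br y z) x) w := sk2 h _ _ _
  have b2 : br (br y (br z x)) w = - br (br (br z x) y) w := sk2 h _ _ _
  have b3 : br (br z (br x y)) w = - br (br (br x y) z) w := sk2 h _ _ _
  have t (a b c d : B) : br (br (br a b) c) d = - br (br (br b a) c) d := by
    rw [sk h a b, map_neg, AddMonoidHom.neg_apply, map_neg, AddMonoidHom.neg_apply]
  have c1 := t w y x z
  have c2 := t w z y x
  have c3 := t w x z y
  have c4 := t y x z w
  have c5 := t z y x w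
  have c6 := t x z y w
  have c7 := t x z w y
  have c8 := t y x w z
  have c9 := t z y w x

  linear_combination (norm := module) s1 + s2 + s3 + b1 + b2 + b3 + c1 + c2 + c3 + c4 + c5 + c6 +
    c7 + c8 + c9 - (2 : ℤ) • a1 - (2 : ℤ) • a2 - (2 : ℤ) • a3

/-- `q ∘ [B,B] = 0` -/
def InQ (br jo : B →+ B →+ B) (q : B) : Prop := ∀ d e, jo q (br d e) = 0

/-- `12 PP q x C = q ∘ (C ∘ x)` when `q ∘ C = 0` -/
def PP (br : B →+ B →+ B) (q x C : B) : B :=
  2 • br (br q x) C + br (br q C) x + br q (br x C)

theorem PP_eq (h : Cal br jo) {q C : B} (hq : jo q C = 0) (x : B) :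
    12 • PP br q x C = jo q (jo C x) := by
  have h4 := h.m4 q C x
  rw [hq, map_zero, AddMonoidHom.zero_apply] at h4
  unfold PP
  unfold Jc at h4
  have a1 := sk h C (br q x)
  have a2 := sk h (br C x) q
  have a3 := sk3 h q C x
  have a4 := sk2 h x q C
  linear_combination (norm := module) h4 + (36 : ℤ) • a1 - (12 : ℤ) • a2 + (12 : ℤ) • a3 -
    (12 : ℤ) • a4

theorem InQ.ad (h : Cal br jo) {q : B} (hq : InQ br jo q) (w : B) : InQ br jo (br q w) := by
  intro d e
  have h2 := h.m2 q (br d e) w
  have z1 : jo q (br d e) = 0 := hq _ _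
  have z2 : jo q (br (br d e) w) = 0 := hq _ _
  rw [z1, z2, map_zero, AddMonoidHom.zero_apply, zero_add] at h2
  exact h2.symm

theorem twelve_eq (h : Cal br jo) {x y : B} (hx : 12 • x = 12 • y) : x = y := by
  rw [← sub_eq_zero]
  apply twelve h
  rw [smul_sub, hx, sub_self]

/-- symmetry -/
theorem PP_sym (h : Cal br jo) {q C C' : B} (hC : jo q C = 0) (hC' : jo q C' = 0) :
    PP br q C C' = PP br q C' C := by
  apply twelve_eq h
  rw [PP_eq h hC, PP_eq h hC', jsym h C C']

/-- `3 [[q,C],C'] = PP q C C' - 3 [q,[C,C']]` -/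
theorem brCC (h : Cal br jo) {q C C' : B} (hC : jo q C = 0) (hC' : jo q C' = 0) :
    3 • br (br q C) C' = PP br q C C' - 3 • br q (br C C') := by
  have h1 := PP_sym h hC hC'
  have a1 := sk3 h q C C'
  unfold PP at *
  linear_combination (norm := module) h1 + a1

theorem PP_inv (h : Cal br jo) {q : B} (hq : InQ br jo q) {C : B} (hC : jo q C = 0) (x w : B) :
    PP br q (br x w) C = - PP br q x (br C w) := by
  apply twelve_eq h
  rw [smul_neg, PP_eq h hC, PP_eq h (hq _ _)]
  have h2 := congrArg (jo q) (h.m2 C x w)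
  rw [hq, map_add] at h2
  exact (eq_neg_of_add_eq_zero_left h2.symm)

theorem PP_alt (h : Cal br jo) {q : B} (hq : InQ br jo q) (x d e : B) :
    PP br q x (br d e) = - PP br q d (br x e) := by
  apply twelve_eq h
  rw [smul_neg, PP_eq h (hq _ _), PP_eq h (hq _ _)]
  have h2 := congrArg (jo q) (h.m2 x d e)
  rw [hq, map_add, jsym h x] at h2
  exact (eq_neg_of_add_eq_zero_left h2.symm)

theorem PP_add (q x C C' : B) : PP br q x (C + C') = PP br q x C + PP br q x C' := by
  unfold PP
  simp only [map_add, AddMonoidHom.add_apply]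
  module

theorem PP_neg (q x C : B) : PP br q x (-C) = - PP br q x C := by
  unfold PP
  simp only [map_neg, AddMonoidHom.neg_apply]
  module

theorem PP_cyc (h : Cal br jo) {q : B} (hq : InQ br jo q) (x d e : B) :
    PP br q x (br d e) = PP br q d (br e x) := by
  rw [PP_alt h hq, sk h x e, PP_neg, neg_neg]

theorem PP_br (h : Cal br jo) {q : B} (hq : InQ br jo q) {C : B} (hC : jo q C = 0) (x w : B)
    (hC' : jo (br q w) C = 0) :
    br (PP br q x C) w = PP br (br q w) x C := by
  apply twelve_eq h
  rw [PP_eq h hC']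
  have e : 12 • br (PP br q x C) w = br (12 • PP br q x C) w := by
    rw [map_nsmul, AddMonoidHom.nsmul_apply]
  rw [e, PP_eq h hC, h.m2 q (jo C x) w, hq, zero_add]

/-- the sum relation -/
theorem sumU (h : Cal br jo) (q a b c : B) :
    br (br q (br b c)) a + br (br q (br c a)) b + br (br q (br a b)) c =
    br (br q a) (br b c) + br (br q b) (br c a) + br (br q c) (br a b) - br q (Jc br a b c) := by
  have s := sag h q a b c
  unfold Jc at *
  have a1 := sk2 h (br b c) q a
  have a2 := sk2 h (br c a) q b
  have a3 := sk2 h (br a b) q c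
  have b1 := sk h (br a (br b c)) q
  have b2 := sk h (br b (br c a)) q
  have b3 := sk h (br c (br a b)) q
  have c1 := sk3 h q a (br b c)
  have c2 := sk3 h q b (br c a)
  have c3 := sk3 h q c (br a b)
  simp only [map_add] at *
  linear_combination (norm := module) -s + a1 + a2 + a3 + b1 + b2 + b3 - c1 - c2 - c3

theorem PP_lin (q q' x C : B) : PP br (q + q') x C = PP br q x C + PP br q' x C := by
  unfold PP
  simp only [map_add, AddMonoidHom.add_apply]
  module

/-- (A1): `3 PP q a [b,c] = 3 sum [[q,a],[b,c]] - 2 [q,J]` -/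
theorem A1 (h : Cal br jo) {q : B} (hq : InQ br jo q) (a b c : B) :
    3 • PP br q a (br b c) = 3 • (br (br q a) (br b c) + br (br q b) (br c a) +
      br (br q c) (br a b)) - 2 • br q (Jc br a b c) := by
  have c1 := PP_cyc h hq a b c
  have c2 := PP_cyc h hq c a b
  have u := sumU h q a b c
  have d1 := sk3 h q a (br b c)
  have d2 := sk3 h q b (br c a)
  have d3 := sk3 h q c (br a b)
  have j : br q (Jc br a b c) = br q (br (br b c) a) + br q (br (br c a) b) +
      br q (br (br a b) c) := by
    unfold Jc; simp only [map_add]; module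
  unfold PP at *
  linear_combination (norm := module) c1 - c2 + u + d1 + d2 + d3 + j

theorem JcL {q : B} (hq : InQ br jo q) (a b c : B) :
    jo q (Jc br a b c) = 0 := by
  unfold Jc
  rw [map_add, map_add, hq, hq, hq, add_zero, add_zero]

theorem A2 (h : Cal br jo) {q : B} (hq : InQ br jo q) (a b c : B) :
    3 • PP br q a (br b c) = 3 • (br (br q (br b c)) a + br (br q (br c a)) b +
      br (br q (br a b)) c) + br q (Jc br a b c) := by
  have u := sumU h q a b c
  have v := A1 h hq a b c
  linear_combination (norm := module) v - (3 : ℤ) • u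

theorem zz (h : Cal br jo) (C a b c : B) :
    br (br a C) (br b c) - br a (br C (br b c)) + (br (br b C) (br c a) - br b (br C (br c a)))
      + (br (br c C) (br a b) - br c (br C (br a b))) = br (Jc br a b c) C := by
  have s := sag h C a b c
  have t (x y : B) : br (br x C) y = - br (br C x) y := sk2 h x C y
  have u (x y : B) : br x (br C y) = br (br y C) x := by
    rw [sk h x, sk2 h C y, neg_neg]
  have w (x y : B) : br (br x y) C = - br C (br x y) := sk h _ _
  unfold Jc at *
  simp only [map_add, AddMonoidHom.add_apply] at *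
  have t1 := t a (br b c)
  have t2 := t b (br c a)
  have t3 := t c (br a b)
  have u1 := u a (br b c)
  have u2 := u b (br c a)
  have u3 := u c (br a b)
  have v1 := sk2 h a (br b c) C
  have v2 := sk2 h b (br c a) C
  have v3 := sk2 h c (br a b) C
  have w1 := w (br b c) a
  have w2 := w (br c a) b
  have w3 := w (br a b) c
  linear_combination (norm := module) t1 + t2 + t3 - u1 - u2 - u3 - s + v1 + v2 + v3
    - (2 : ℤ) • w1 - (2 : ℤ) • w2 - (2 : ℤ) • w3

theorem PP_negm (q x C : B) : PP br q (-x) C = - PP br q x C := by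
  unfold PP
  simp only [map_neg, AddMonoidHom.neg_apply]
  module

theorem PP_addm (q x x' C : B) : PP br q (x + x') C = PP br q x C + PP br q x' C := by
  unfold PP
  simp only [map_add, AddMonoidHom.add_apply]
  module

/-- main step: `[[q,C],J(a,b,c)] = 0` for `C = [d,e]` -/
theorem main (h : Cal br jo) {q : B} (hq : InQ br jo q) (d e a b c : B) :
    br (br q (br d e)) (Jc br a b c) = 0 := by
  set C := br d e with hC
  have hqC : InQ br jo (br q C) := hq.ad h C
  have q0 : ∀ {q : B}, InQ br jo q → jo q C = 0 := fun hq => hq _ _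
  have qJ : jo q (Jc br a b c) = 0 := JcL hq a b c
  have g1 : ∀ a b c : B, 3 • br (br (br q C) a) (br b c) =
      3 • PP br (br q (br b c)) a C - 2 • PP br (br q a) (br b c) C
        + 6 • br (br q a) (br C (br b c)) - PP br q (br a C) (br b c)
        + 3 • br q (br (br a C) (br b c)) := by
    intro a b c
    have e1 := PP_br h hq (q0 hq) a (br b c) (q0 (hq.ad h _))
    have e2 := brCC h (q0 (hq.ad h a)) ((hq.ad h a) b c)
    have e3 := brCC h (hq a C) (hq b c)
    have e4 := PP_sym h (q0 (hq.ad h a)) ((hq.ad h a) b c)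
    have e5 : br (PP br q a C) (br b c) = 2 • br (br (br q a) C) (br b c) +
        br (br (br q C) a) (br b c) + br (br q (br a C)) (br b c) := by
      unfold PP
      simp only [map_add, map_nsmul, AddMonoidHom.add_apply, AddMonoidHom.nsmul_apply]
    linear_combination (norm := module) (3 : ℤ) • e1 - (3 : ℤ) • e5 - (2 : ℤ) • e2 - e3 - (2 : ℤ) • e4
  -- `3 [[q,C'],a]` for `C' = [C,[b,c]]`
  have g0 : ∀ a b c : B, br (br q (br C (br b c))) a = - PP br q (br a (br b c)) C
      - 2 • br (br q a) (br C (br b c)) - br q (br a (br C (br b c))) := by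
    intro a b c
    have e1 := PP_inv h hq (q0 hq) a (br b c)
    rw [e1]
    unfold PP
    module
  have g2 : ∀ a b c : B, 3 • br (br (br q C) (br b c)) a =
      PP br (br q a) (br b c) C + 3 • PP br q (br a (br b c)) C
        + 6 • br (br q a) (br C (br b c)) + 3 • br q (br a (br C (br b c))) := by
    intro a b c
    have e1 := congrArg (fun x => br x a) (brCC h (q0 hq) (hq b c))
    simp only [map_sub, map_nsmul, AddMonoidHom.sub_apply, AddMonoidHom.nsmul_apply] at e1
    have e2 := PP_br h hq (hq b c) C a ((hq.ad h a) b c)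
    have e3 := PP_sym h (q0 (hq.ad h a)) ((hq.ad h a) b c)
    have e5 := g0 a b c
    linear_combination (norm := module) e1 + e2 + e3 - (3 : ℤ) • e5
  have g3 : ∀ a b c : B, 6 • br (br (br q (br b c)) a) C =
      3 • PP br (br q (br b c)) a C - PP br (br q a) (br b c) C + 3 • PP br q (br a (br b c)) C
        + 6 • br (br q a) (br C (br b c)) + 3 • br q (br a (br C (br b c)))
        - PP br q (br a C) (br b c) + 3 • br q (br (br b c) (br a C)) := by
    intro a b c
    have e0 : PP br (br q (br b c)) a C = 2 • br (br (br q (br b c)) a) C +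
        br (br (br q (br b c)) C) a + br (br q (br b c)) (br a C) := rfl
    have e1 := congrArg (fun x => br x a) (brCC h (hq b c) (q0 hq))
    simp only [map_sub, map_nsmul, AddMonoidHom.sub_apply, AddMonoidHom.nsmul_apply] at e1
    have e2 := PP_br h hq (q0 hq) (br b c) a (q0 (hq.ad h a))
    have e3 : br (br q (br (br b c) C)) a = - br (br q (br C (br b c))) a := by
      rw [sk h (br b c) C, map_neg, map_neg, AddMonoidHom.neg_apply]
    have e5 := g0 a b c
    have e6 := brCC h (hq b c) (hq a C)
    have e7 := PP_sym h (hq b c) (hq a C)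
    linear_combination (norm := module) (-3 : ℤ) • e0 - e1 - e2 + (3 : ℤ) • e3 - (3 : ℤ) • e5
      - e6 - e7
  have g4 : ∀ a b c : B, 3 • br (br (br q a) (br b c)) C =
      PP br (br q a) (br b c) C + 3 • br (br q a) (br C (br b c)) := by
    intro a b c
    have e1 := brCC h ((hq.ad h a) b c) (q0 (hq.ad h a))
    have e2 := sk3 h (br q a) (br b c) C
    linear_combination (norm := module) e1 - (3 : ℤ) • e2
  have g6s : PP br q (br a (br b c)) C + PP br q (br b (br c a)) C + PP br q (br c (br a b)) C =
      - PP br q (Jc br a b c) C := by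
    unfold Jc
    rw [PP_addm, PP_addm, sk h a (br b c), sk h b (br c a), sk h c (br a b), PP_negm, PP_negm,
      PP_negm]
    module
  have f1 := A1 h hqC a b c
  have f2 := A2 h hqC a b c
  have f3 := congrArg (fun x => br x C) (A1 h hq a b c)
  have f4 := congrArg (fun x => br x C) (A2 h hq a b c)
  have p3 := PP_br h hq (hq b c) a C (hqC b c)
  simp only [map_add, map_sub, map_nsmul, AddMonoidHom.add_apply, AddMonoidHom.sub_apply,
    AddMonoidHom.nsmul_apply] at f3 f4
  have pj : PP br q (Jc br a b c) C = 2 • br (br q (Jc br a b c)) C +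
      br (br q C) (Jc br a b c) + br q (br (Jc br a b c) C) := rfl
  have pj' : PP br q C (Jc br a b c) = 2 • br (br q C) (Jc br a b c) +
      br (br q (Jc br a b c)) C + br q (br C (Jc br a b c)) := rfl
  have psym := PP_sym h (q0 hq) qJ
  have jj := sk3 h q C (Jc br a b c)
  have z := congrArg (fun x => br q x) (zz h C a b c)
  simp only [map_add, map_sub] at z
  have g1a := g1 a b c
  have g1b := g1 b c a
  have g1c := g1 c a b
  have g2a := g2 a b c
  have g2b := g2 b c a
  have g2c := g2 c a b
  have g3a := g3 a b c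
  have g3b := g3 b c a
  have g3c := g3 c a b
  have g4a := g4 a b c
  have g4b := g4 b c a
  have g4c := g4 c a b
  have c1 := sk3 h q (br b c) (br a C)
  have c2 := sk3 h q (br c a) (br b C)
  have c3 := sk3 h q (br a b) (br c C)
  apply h.tors3
  apply h.tors3
  linear_combination (norm := module) (-1 : ℤ) • ((f1 + g1a + g1b + g1c - f2 - g2a - g2b - g2c)
    + (2 : ℤ) • (f3 + g4a + g4b + g4c - (3 : ℤ) • p3)
    + ((-2 : ℤ) • f4 - g3a - g3b - g3c + (6 : ℤ) • p3) - (6 : ℤ) • g6s + (6 : ℤ) • pj
    + (6 : ℤ) • z - (6 : ℤ) • (psym - pj' + pj - jj) - (3 : ℤ) • (c1 + c2 + c3))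

/-- `InQ` elements vanish -/
theorem InQ.zero (h : Cal br jo) {q : B} (hq : InQ br jo q) : q = 0 := by
  have hC : ∀ d e, br q (br d e) = 0 := by
    intro d e
    apply h.ann
    · intro a b c; exact JcL (hq.ad h _) a b c
    · intro a b c; exact main h hq d e a b c
  apply h.ann
  · intro a b c; exact JcL hq a b c
  · intro a b c
    unfold Jc
    rw [map_add, map_add, hC, hC, hC, add_zero, add_zero]

/-- LEMMA R -/
theorem annRCal (h : Cal br jo) (r : B) (hr : ∀ x y z, jo r (Jc br x y z) = 0) : r = 0 := by
  -- the set of such elements is stable under brackets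
  have tw : ∀ {x : B}, 2 • x = 0 → x = 0 := fun hx => h.tors2 _ hx
  have had : ∀ r : B, (∀ x y z, jo r (Jc br x y z) = 0) → ∀ w x y z,
      jo (br r w) (Jc br x y z) = 0 := by
    intro r hr w x y z
    have h1 := h.m2 r (Jc br x y z) w
    rw [hr, map_zero, AddMonoidHom.zero_apply] at h1
    have h2 : 2 • jo r (br (Jc br x y z) w) = 0 := by
      have s := sag h w x y z
      have s1 := congrArg (jo r) s
      rw [map_add, map_add, hr, hr, hr, add_zero, add_zero, map_nsmul] at s1
      rw [sk h (Jc br x y z) w, map_neg, smul_neg, ← s1, neg_zero]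
    rw [tw h2, zero_add] at h1
    exact h1.symm
  have hR1 : ∀ w x y z, jo (br r w) (Jc br x y z) = 0 := had r hr
  have hR2 : ∀ u w x y z, jo (br (br r u) w) (Jc br x y z) = 0 := fun u => had _ (hR1 u)
  have hRJ : ∀ u v x y z, jo (Jc br r u v) (Jc br x y z) = 0 := by
    intro u v x y z
    have e1 : Jc br r u v = br (br r u) v - br r (br u v) - br (br r v) u := by
      unfold Jc
      rw [sk h (br u v) r, sk2 h v r u]
      abel
    rw [e1, map_sub, map_sub, AddMonoidHom.sub_apply, AddMonoidHom.sub_apply, hR2, hR1, hR2,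
      sub_zero, sub_zero]
  have Jskew : ∀ x y z, Jc br x z y = - Jc br x y z := by
    intro x y z
    unfold Jc
    rw [sk2 h x z y, sk2 h z y x, sk2 h y x z]
    abel
  have k1 : ∀ x w y z, jo (Jc br r y z) (br x w) = - jo (Jc br r w z) (br x y) := by
    intro x w y z
    have e := h.m3 x r y w z
    rw [jsym h (Jc br x y z), hR1, jsym h (Jc br x w z), hR1, zero_add, zero_add] at e
    exact eq_neg_of_add_eq_zero_left e
  have k2 : ∀ x w y z, jo (Jc br r y z) (br x w) = jo (Jc br r x w) (br y z) := by
    intro d e a C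
    rw [k1 d e a C, sk h d a, map_neg, neg_neg, k1 a d e C, Jskew r C d, map_neg,
      AddMonoidHom.neg_apply, neg_neg, k1 a e C d, Jskew r d e, map_neg, AddMonoidHom.neg_apply,
      neg_neg]
  have hq : ∀ a b c, InQ br jo (br r (Jc br a b c)) := by
    intro a b c d e
    apply tw
    have s := congrArg (fun x => jo x (br d e)) (sag h r a b c)
    simp only [map_add, map_nsmul, AddMonoidHom.add_apply, AddMonoidHom.nsmul_apply] at s
    rw [← s, k2 d e a (br b c), k2 d e b (br c a), k2 d e c (br a b), ← map_add, ← map_add]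
    have e1 : br a (br b c) + br b (br c a) + br c (br a b) = - Jc br a b c := by
      unfold Jc
      rw [sk h a (br b c), sk h b (br c a), sk h c (br a b)]
      abel
    rw [e1, map_neg, hRJ, neg_zero]
  apply h.ann r hr
  intro a b c
  exact (hq a b c).zero h

/-- LEMMA R in the calculus of helper19 -/
theorem annR (h : Calc br jo) (r : B) (hr : ∀ x y z, jo r (Jc br x y z) = 0) : r = 0 :=
  annRCal ⟨h.tors2, h.tors3, h.skew, h.symm, h.sagle, h.m2, h.m3, h.m4, h.ann⟩ r hr

end cal

open Pool.Agent.TP.H67 in
/-- LEMMA R in alternative rings -/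
theorem annRStmt : AnnRStmt := by
  intro B _ hB h2B h3B hann r hr0
  have h6 : ∀ x : B, 6 • x = 0 → x = 0 := by
    intro x hx
    apply h2B
    apply h3B
    rw [← hx, ← mul_nsmul]
  have hc : Cal (brB B) (joB B) := by
    refine ⟨h2B, h3B, ?_, ?_, ?_, ?_, ?_, ?_, ?_⟩
    · intro x y
      simp only [brB_apply, kb]; abel
    · intro x y
      simp only [joB_apply, smul_add]; abel
    · intro a b c d
      simp only [brB_apply]
      have h := sagle3 hB h2B a b c d
      rw [← sub_eq_zero]
      apply h3B
      rw [← h]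
      simp only [sub_add_eq_sub_sub]
      exact (ofNat_zsmul _ _).symm
    · intro a b c
      rw [joB_apply, brB_nsmul1, joB_apply, joB_apply, ← smul_add]
      simp only [brB_apply]
      rw [m2' hB h2B a b c]
    · intro x x' y y' z
      simp only [Jc_brB hB, joB_nsmul1]
      simp only [joB_apply, brB_apply, ← smul_add]
      have h := P4 hB h2B x x' y y' z
      rw [show asc x y z * kb x' y' + kb x' y' * asc x y z +
        (asc x y' z * kb x' y + kb x' y * asc x y' z) +
        (asc x' y z * kb x y' + kb x y' * asc x' y z) +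
        (asc x' y' z * kb x y + kb x y * asc x' y' z) = 0 from by
          linear_combination (norm := abel) h]
      rw [smul_zero, smul_zero]
    · intro a b c
      rw [joB_apply a b, joB_nsmul1, joB_apply b c, map_nsmul, Jc_brB hB]
      simp only [joB_apply, brB_apply]
      have h := m4' hB a b c
      have e1 : (36 : ℕ) • kb b (kb a c) - (12 : ℕ) • (6 : ℕ) • asc a b c =
          (36 : ℕ) • (kb b (kb a c) - (asc a b c + asc a b c)) := by
        rw [smul_sub, smul_add]
        abel
      rw [e1, ← h, smul_sub, ← mul_nsmul, ← mul_nsmul]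
    · intro r h1 h2
      have h3 : ∀ x y z : B, r * asc x y z + asc x y z * r = 0 := by
        intro x y z
        have h := h1 x y z
        rw [Jc_brB hB, map_nsmul, joB_apply] at h
        exact h6 _ (h6 _ h)
      have h4 : ∀ x y z : B, r * asc x y z - asc x y z * r = 0 := by
        intro x y z
        have h := h2 x y z
        rw [Jc_brB hB, map_nsmul, brB_apply] at h
        exact h6 _ h
      have h5 : ∀ x y z : B, r * asc x y z = 0 := by
        intro x y z
        apply h2B
        rw [two_smul]
        linear_combination (norm := abel) h3 x y z + h4 x y z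
      have h7 : ∀ x y z : B, asc x y z * r = 0 := by
        intro x y z
        have := h3 x y z
        rwa [h5, zero_add] at this
      exact hann r h5 h7 (H51.h51_ann hB h2B r h5 h7)
  apply annRCal hc
  intro x y z
  rw [Jc_brB hB, map_nsmul, joB_apply, hr0, smul_zero, smul_zero]

end Pool.Agent.TP.H66
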