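import Pool.Agent.Helper66_TP.NXZ

/-!
# MP_ce3ba7_al, characteristic 3: rule Z (helper66)
-/

set_option autoImplicit false
set_option linter.unusedSectionVars false
set_option linter.unusedVariables false

namespace Pool.Agent.TP

namespace H66Z

open H67 B3

variable {F : Type} [Field F] {B : Type} [NonUnitalNonAssocRing B] [Module F B]
  [IsScalarTower F B B] [SMulCommClass F B B]

theorem kb_smul1 (c : F) (x y : B) : kb (c • x) y = c • kb x y := by
  unfold kb; rw [smul_mul_assoc, mul_smul_comm, smul_sub]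

theorem kb_map (Φ : B →ₙₐ[F] B) (a b : B) : Φ (kb a b) = kb (Φ a) (Φ b) := by
  unfold kb; simp only [map_sub, map_mul]

/-- The subalgebra `Z`. -/
def Zs (F : Type) [Field F] (B : Type) [NonUnitalNonAssocRing B] [Module F B]
    [IsScalarTower F B B] [SMulCommClass F B B] (hA : IsAlt B)
    (h3 : ∀ x : B, x + x + x = 0) (hn : ∀ g : B, (∀ y z, asc g y z = 0) → g = 0) :
    NonUnitalSubalgebra F B where
  carrier := {g | InZ g}
  add_mem' := fun {a b} ha hb => inZ_add ha hb
  zero_mem' := inZ_zero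
  mul_mem' := fun {a b} ha hb => z_mul hA h3 hn ha hb
  smul_mem' := fun c g hg y z => by
    change asc (c • g) y z = kb (c • g) (kb y z)
    rw [H51.asc_smul1, hg y z, kb_smul1]

section
variable (hA : IsAlt B) (h3 : ∀ x : B, x + x + x = 0)
  (hn : ∀ g : B, (∀ y z, asc g y z = 0) → g = 0)

theorem z_inv {x : ℕ → B} (hR : RelFree F B x) (Φ : B →ₙₐ[F] B) (g : B) (hg : InZ g) :
    InZ (Φ g) := by
  intro y z
  obtain ⟨Ψ, w, h1, h2⟩ := H51.fresh hR Φ g (fun i => if i = 0 then y else z)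
  have h3 := congrArg Ψ (hg (w 0) (w 1))
  rw [H51.asc_map, kb_map, kb_map, h1, h2, h2] at h3
  simpa using h3

include hA h3 hn

theorem z_kill (hTP : TPrime F B) (W : Submodule F B)
    (hWZ : ∀ w ∈ W, InZ w) (hcomm : ∀ w ∈ W, ∀ b, kb w b ∈ W)
    (hinv : FullyInv F B W) (hsq : ∀ w ∈ W, ∀ w' ∈ W, w * w' = 0) : W = ⊥ := by
  have hTm : ∀ w ∈ W, ∀ a b, asc w a b ∈ W := fun w hw a b => by
    rw [hWZ w hw]; exact hcomm w hw _
  have e1 : ∀ w a b : B, w * a * b = asc w a b + w * (a * b) := fun w a b => by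
    unfold asc; abel
  have e2 : ∀ w a : B, a * w = w * a - kb w a := fun w a => by unfold kb; abel
  have hl : ∀ w ∈ W, ∀ b, b * w ∈ H51.Idl W := fun w hw b => by
    rw [e2 w b]
    exact Submodule.sub_mem _ (H51.idl_mul W hw b) (H51.idl_sub W (hcomm w hw b))
  have hr : ∀ w ∈ W, ∀ a b, w * a * b ∈ H51.Idl W := fun w hw a b => by
    rw [e1 w a b]
    exact Submodule.add_mem _ (H51.idl_sub W (hTm w hw _ _)) (H51.idl_mul W hw _)
  have hT : TIdeal F B (H51.Idl W) := by
    constructor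
    · intro a ha b
      constructor
      · refine Submodule.span_induction (p := fun a _ => a * b ∈ H51.Idl W) ?_ ?_ ?_ ?_ ha
        · rintro c (hc | ⟨w, hw, d, rfl⟩)
          · exact H51.idl_mul W hc b
          · exact hr w hw d b
        · rw [zero_mul]; exact Submodule.zero_mem _
        · intro u v _ _ hu hv
          rw [add_mul]; exact Submodule.add_mem _ hu hv
        · intro c u _ hu
          rw [smul_mul_assoc]; exact Submodule.smul_mem _ _ hu
      · refine Submodule.span_induction (p := fun a _ => b * a ∈ H51.Idl W) ?_ ?_ ?_ ?_ ha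
        · rintro c (hc | ⟨w, hw, d, rfl⟩)
          · exact hl c hc b
          · change b * (w * d) ∈ H51.Idl W
            have e3 : b * (w * d) = w * b * d - kb w b * d + asc w b d := by
              have h1 : asc b w d = - asc w b d := s12 hA w b d
              have h2 : b * (w * d) = b * w * d - asc b w d := by unfold asc; abel
              rw [h2, h1, e2 w b, sub_mul]
              abel
            rw [e3]
            exact Submodule.add_mem _ (Submodule.sub_mem _ (hr w hw b d)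
              (H51.idl_mul W (hcomm w hw b) d)) (H51.idl_sub W (hTm w hw _ _))
        · rw [mul_zero]; exact Submodule.zero_mem _
        · intro u v _ _ hu hv
          rw [mul_add]; exact Submodule.add_mem _ hu hv
        · intro c u _ hu
          rw [mul_smul_comm]; exact Submodule.smul_mem _ _ hu
    · intro Φ a ha
      refine Submodule.span_induction (p := fun a _ => Φ a ∈ H51.Idl W) ?_ ?_ ?_ ?_ ha
      · rintro c (hc | ⟨w, hw, d, rfl⟩)
        · exact H51.idl_sub W (hinv Φ c hc)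
        · rw [map_mul]
          exact H51.idl_mul W (hinv Φ w hw) _
      · rw [map_zero]; exact Submodule.zero_mem _
      · intro u v _ _ hu hv
        rw [map_add]; exact Submodule.add_mem _ hu hv
      · intro c u _ hu
        rw [map_smul]; exact Submodule.smul_mem _ _ hu
  have k0 : ∀ w ∈ W, ∀ w' ∈ W, ∀ b, asc w w' b = 0 := fun w hw w' hw' b =>
    z_t hA h3 hn (hWZ w hw) (hWZ w' hw') b
  have k1 : ∀ w ∈ W, ∀ w' ∈ W, ∀ b, w * (w' * b) = 0 := fun w hw w' hw' b => by
    have h := k0 w hw w' hw' b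
    unfold asc at h
    rw [hsq w hw w' hw', zero_mul, zero_sub, neg_eq_zero] at h
    exact h
  have k2 : ∀ w ∈ W, ∀ b : B, ∀ w' ∈ W, w * b * w' = 0 := by
    intro w hw b w' hw'
    rw [e1, s23 hA w w' b, k0 w hw w' hw', neg_zero, zero_add, e2 w' b, mul_sub, k1 w hw w' hw',
      hsq w hw _ (hcomm w' hw' b), sub_zero]
  have k3 : ∀ w ∈ W, ∀ w' ∈ W, ∀ b c : B, w * b * (w' * c) = 0 := by
    intro w hw w' hw' b c
    have h1 : w * b * (w' * c) = w * b * w' * c - asc (w * b) w' c := by unfold asc; abel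
    have h2 : asc (w * b) w' c = 0 := by
      have h3' : asc (w * b) w' c = - kb w' (kb (w * b) c) := by
        rw [← hWZ w' hw', s12 hA w' (w * b) c]
      have h4 : kb (w * b) c = - (kb c w * b + w * kb c b) := by
        rw [kb_skew, ad_mul hA h3]
      have h5 : kb c w ∈ W := by
        rw [kb_skew]; exact W.neg_mem (hcomm w hw c)
      rw [h3', h4, kb_neg2, kb_add2, ad_mul hA h3, ad_mul hA h3]
      have h6 : ∀ u ∈ W, kb w' u = 0 := fun u hu => by
        unfold kb; rw [hsq w' hw' u hu, hsq u hu w' hw', sub_zero]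
      rw [h6 _ h5, h6 w hw, zero_mul, zero_mul, zero_add, zero_add,
        hsq _ h5 _ (hcomm w' hw' b), hsq w hw _ (hcomm w' hw' _)]
      simp
    rw [h1, k2 w hw b w' hw', h2, zero_mul, sub_zero]
  have hz : ∀ a ∈ H51.Idl W, ∀ b ∈ H51.Idl W, a * b = 0 := by
    intro a ha b hb
    refine Submodule.span_induction₂ (p := fun a b _ _ => a * b = 0) ?_ ?_ ?_ ?_ ?_ ?_ ?_ ha hb
    · rintro a b (ha | ⟨w, hw, d, rfl⟩) (hb | ⟨w', hw', d', rfl⟩)
      · exact hsq a ha b hb
      · exact k1 a ha w' hw' d'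
      · exact k2 w hw d b hb
      · exact k3 w hw w' hw' d d'
    · intro y _; exact zero_mul y
    · intro y _; exact mul_zero y
    · intro x y z _ _ _ h1 h2
      rw [add_mul, h1, h2, add_zero]
    · intro x y z _ _ _ h1 h2
      rw [mul_add, h1, h2, add_zero]
    · intro r x y _ _ h
      rw [smul_mul_assoc, h, smul_zero]
    · intro r x y _ _ h
      rw [mul_smul_comm, h, smul_zero]
  have := hTP _ _ hT hT hz
  have hI : H51.Idl W = ⊥ := this.elim id id
  rw [eq_bot_iff, ← hI]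
  exact H51.idl_sub W

end

/-- powers of `Z` -/
def Pz (Z : NonUnitalSubalgebra F B) : ℕ → Submodule F B
  | 0 => Z.toSubmodule
  | k + 1 => Submodule.span F {c | ∃ w ∈ Pz Z k, ∃ m ∈ Z, c = w * m}

theorem pz_sub (Z : NonUnitalSubalgebra F B) (k : ℕ) : ∀ w ∈ Pz Z k, w ∈ Z := by
  induction k with
  | zero => intro w hw; exact hw
  | succ k ih =>
    intro w hw
    refine Submodule.span_induction (p := fun a _ => a ∈ Z) ?_ ?_ ?_ ?_ hw
    · rintro c ⟨w, hw, m, hm, rfl⟩
      exact Z.mul_mem (ih w hw) hm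
    · exact Z.zero_mem
    · intro u v _ _ hu hv
      exact Z.add_mem hu hv
    · intro c u _ hu
      exact SMulMemClass.smul_mem c hu

theorem pz_mul (Z : NonUnitalSubalgebra F B) (k : ℕ) {w m : B} (hw : w ∈ Pz Z k) (hm : m ∈ Z) :
    w * m ∈ Pz Z (k + 1) := Submodule.subset_span ⟨w, hw, m, hm, rfl⟩

theorem pz_comm (hA : IsAlt B) (h3 : ∀ x : B, x + x + x = 0) (Z : NonUnitalSubalgebra F B)
    (hZ : ∀ z ∈ Z, ∀ b : B, kb z b ∈ Z) (k : ℕ) :
    ∀ w ∈ Pz Z k, ∀ b, kb w b ∈ Pz Z k := by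
  induction k with
  | zero => intro w hw b; exact hZ w hw b
  | succ k ih =>
    intro w hw b
    refine Submodule.span_induction (p := fun a _ => kb a b ∈ Pz Z (k + 1))
      ?_ ?_ ?_ ?_ hw
    · rintro c ⟨w, hw, m, hm, rfl⟩
      have e : kb (w * m) b = kb w b * m + w * kb m b := by
        rw [kb_skew (w * m) b, ad_mul hA h3, kb_skew b w, kb_skew b m, neg_mul, mul_neg]
        abel
      rw [e]
      exact Submodule.add_mem _ (pz_mul Z k (ih w hw b) hm) (pz_mul Z k hw (hZ m hm b))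
    · rw [kb_zero1]; exact Submodule.zero_mem _
    · intro u v _ _ hu hv
      rw [kb_add1]
      exact Submodule.add_mem _ hu hv
    · intro c u _ hu
      rw [kb_smul1]
      exact Submodule.smul_mem _ _ hu

theorem pz_inv (Z : NonUnitalSubalgebra F B)
    (hZ : ∀ (Φ : B →ₙₐ[F] B), ∀ z ∈ Z, Φ z ∈ Z) (k : ℕ) : FullyInv F B (Pz Z k) := by
  induction k with
  | zero => intro Φ g hg; exact hZ Φ g hg
  | succ k ih =>
    intro Φ w hw
    refine Submodule.span_induction (p := fun a _ => Φ a ∈ Pz Z (k + 1)) ?_ ?_ ?_ ?_ hw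
    · rintro c ⟨w, hw, m, hm, rfl⟩
      rw [map_mul]
      exact pz_mul Z k (ih Φ w hw) (hZ Φ m hm)
    · rw [map_zero]; exact Submodule.zero_mem _
    · intro u v _ _ hu hv
      rw [map_add]; exact Submodule.add_mem _ hu hv
    · intro c u _ hu
      rw [map_smul]; exact Submodule.smul_mem _ _ hu

/-- the scheme of proof: an associative fully invariant subalgebra all of whose square zero
fully invariant pieces (closed under commutators) vanish is zero -/
theorem scheme (S : Set (MonoidAlgebra F (FreeMagma ℕ))) (hS : AssNil F S)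
    (hA : IsAlt B) (h3 : ∀ x : B, x + x + x = 0) (hSat : Sat F S B)
    (Z : NonUnitalSubalgebra F B)
    (hass : ∀ a ∈ Z, ∀ b ∈ Z, ∀ c ∈ Z, a * b * c = a * (b * c))
    (hcomm : ∀ z ∈ Z, ∀ b : B, kb z b ∈ Z)
    (hinv : ∀ (Φ : B →ₙₐ[F] B), ∀ z ∈ Z, Φ z ∈ Z)
    (hkill : ∀ W : Submodule F B, (∀ w ∈ W, w ∈ Z) → (∀ w ∈ W, ∀ b, kb w b ∈ W) →
      FullyInv F B W → (∀ w ∈ W, ∀ w' ∈ W, w * w' = 0) → W = ⊥) :
    ∀ z ∈ Z, z = 0 := by
  obtain ⟨n, V, hV0, hVm, hVn⟩ := hS Z
    (fun x y => Subtype.ext (hA.1 _ _)) (fun x y => Subtype.ext (hA.2 _ _))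
    (fun f hf φ => Subtype.ext (by rw [H51.lift_sub]; exact hSat f hf _))
    (fun x y z => Subtype.ext (hass _ x.2 _ y.2 _ z.2))
  have hWV : ∀ k, ∀ w ∈ Pz Z k, ∃ v ∈ V k, (v : B) = w := by
    intro k
    induction k with
    | zero =>
      intro w hw
      refine ⟨⟨w, hw⟩, ?_, rfl⟩
      rw [hV0]
      trivial
    | succ k ih =>
      intro w hw
      refine Submodule.span_induction (p := fun a _ => ∃ v ∈ V (k + 1), (v : B) = a)
        ?_ ?_ ?_ ?_ hw
      · rintro c ⟨w, hw, m, hm, rfl⟩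
        obtain ⟨v, hv, hvw⟩ := ih w hw
        refine ⟨v * ⟨m, hm⟩, ?_, ?_⟩
        · refine hVm k 0 v hv ⟨m, hm⟩ ?_
          rw [hV0]
          trivial
        · change (v : B) * m = w * m
          rw [hvw]
      · exact ⟨0, Submodule.zero_mem _, rfl⟩
      · rintro u v _ _ ⟨a, ha, rfl⟩ ⟨b, hb, rfl⟩
        exact ⟨a + b, Submodule.add_mem _ ha hb, rfl⟩
      · rintro c u _ ⟨a, ha, rfl⟩
        exact ⟨c • a, Submodule.smul_mem _ _ ha, rfl⟩
  have hWn : Pz Z n = ⊥ := by
    rw [eq_bot_iff]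
    intro w hw
    obtain ⟨v, hv, hvw⟩ := hWV n w hw
    rw [hVn, Submodule.mem_bot] at hv
    rw [Submodule.mem_bot, ← hvw, hv]
    rfl
  have hstep : ∀ k, Pz Z (k + 1) = ⊥ → Pz Z k = ⊥ := by
    intro k hk
    refine hkill _ (pz_sub Z k) (pz_comm hA h3 Z hcomm k) (pz_inv Z hinv k) ?_
    intro w hw w' hw'
    have h := pz_mul Z k hw (pz_sub Z k w' hw')
    rw [hk, Submodule.mem_bot] at h
    exact h
  have hW0 : ∀ k, Pz Z k = ⊥ → Pz Z 0 = ⊥ := by
    intro k
    induction k with
    | zero => exact id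
    | succ k ih => exact fun h => ih (hstep k h)
  intro z hz
  have h0 : z ∈ Pz Z 0 := hz
  rw [hW0 n hWn, Submodule.mem_bot] at h0
  exact h0

/-- RULE Z: in a T-prime relatively free alternative algebra of characteristic 3 with zero
nucleus, satisfying `S` with `AssNil F S`, only `0` satisfies `(g,a,b) = [g,[a,b]]`. -/
theorem ruleZ (S : Set (MonoidAlgebra F (FreeMagma ℕ))) (hS : AssNil F S) {x : ℕ → B}
    (hR : RelFree F B x) (hA : IsAlt B) (h3 : ∀ x : B, x + x + x = 0) (hSat : Sat F S B)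
    (hTP : TPrime F B) (hn : ∀ g : B, (∀ y z, asc g y z = 0) → g = 0) (g : B)
    (hg : ∀ a b, asc g a b = kb g (kb a b)) : g = 0 := by
  refine scheme S hS hA h3 hSat (Zs F B hA h3 hn) ?_ ?_ ?_ ?_ g hg
  · intro a ha b hb c _
    exact sub_eq_zero.1 (z_t hA h3 hn ha hb c)
  · intro z hz b
    exact z_ad hA h3 hz b
  · intro Φ z hz
    exact z_inv hR Φ z hz
  · intro W hW hc hi hsq
    exact z_kill hA h3 hn hTP W hW hc hi hsq

end H66Z

end Pool.Agent.TP
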