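import Pool.Agent.Helper50_TP3.Base3

/-!
# MP_ce3ba7_al, module C3-ID3 (helper66): identity (3) in characteristic 3

If all Pfaffians of commutators vanish then the squares of commutators are in the nucleus.
-/

set_option autoImplicit false
set_option linter.unusedSectionVars false
set_option linter.unusedVariables false

namespace Pool.Agent.TP

namespace H66Z

open H67 B3

variable {B : Type} [NonUnitalNonAssocRing B]

/-- the Pfaffian `[y1,y2] o [y3,y4] - [y1,y3] o [y2,y4] + [y1,y4] o [y2,y3]` -/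
def Pf (y1 y2 y3 y4 : B) : B :=
  jo (kb y1 y2) (kb y3 y4) - jo (kb y1 y3) (kb y2 y4) + jo (kb y1 y4) (kb y2 y3)

variable (hB : IsAlt B) (h3 : ∀ x : B, x + x + x = 0)
include hB h3

/-- linearised `[x,y] o T(x,y,z) = 0` -/
theorem PJL (x x' y y' z : B) : jo (kb x y) (asc x' y' z) + jo (kb x y') (asc x' y z) +
    jo (kb x' y) (asc x y' z) + jo (kb x' y') (asc x y z) = 0 := by
  have h1 : ∀ x y y', jo (kb x y) (asc x y' z) + jo (kb x y') (asc x y z) = 0 := by
    intro x y y'
    have h := PJ hB h3 x (y + y') z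
    rw [kb_add2, asc_add2, jo_add1, jo_add2, jo_add2, PJ hB h3, PJ hB h3] at h
    linear_combination (norm := abel) h
  have h := h1 (x + x') y y'
  simp only [kb_add1, asc_add1, jo_add1, jo_add2] at h
  have e1 := h1 x y y'
  have e2 := h1 x' y y'
  linear_combination (norm := abel) h - e1 - e2

theorem PJc (x y z : B) : jo (kb x y) (asc z x y) = 0 := by
  rw [← PJ hB h3 x y z, cyc' hB x y z]

/-- `[T(a,b,x),y] + [x,T(a,b,y)] = [b,T(a,x,y)] - [a,T(b,x,y)]` -/
theorem Fab (a b x y : B) : kb (asc a b x) y + kb x (asc a b y) =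
    kb b (asc a x y) - kb a (asc b x y) := by
  have h := F3z hB h3 a b x y
  have e2 : asc x y a = asc a x y := cyc hB a x y
  have e3 : asc y a b = asc a b y := cyc' hB a b y
  rw [e2, e3] at h
  rw [kb_skew (asc a b x) y]
  linear_combination (norm := abel) h

/-- identity (3) -/
theorem id3 (hP : ∀ y1 y2 y3 y4 : B, Pf y1 y2 y3 y4 = 0) (x y a b : B) :
    asc (jo (kb x y) (kb x y)) a b = 0 := by
  -- `[a,s] o T(b,x,y) = [a,x] o [y,T(b,x,y)] - [a,y] o [x,T(b,x,y)]`
  have key : ∀ a b : B, jo (kb a (kb x y)) (asc b x y) =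
      jo (kb a x) (asc (kb x y) y b) - jo (kb a y) (asc (kb x y) x b) := by
    intro a b
    have h1 := hP x y a (asc b x y)
    unfold Pf at h1
    have h2 : jo (kb x y) (kb a (asc b x y)) = - jo (kb a (kb x y)) (asc b x y) := by
      have e := ad_jo hB h3 a (kb x y) (asc b x y)
      rw [PJc hB h3, kb_zero2] at e
      linear_combination (norm := abel) - e
    have h4 : kb x (asc b x y) = asc (kb x y) x b := by
      rw [R1a hB h3, cyc hB b x y]
    have h5 : kb y (asc b x y) = asc (kb x y) y b := by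
      have e1 := R1a hB h3 y x b
      rw [kb_skew y x, asc_neg1, s12 hB x y b, kb_neg2, neg_inj] at e1
      rw [e1, cyc hB b x y]
    rw [h2, h4, h5, kb_skew x a, jo_neg1, kb_skew y a, jo_neg2,
      jo_comm (asc (kb x y) x b) (kb a y)] at h1
    linear_combination (norm := abel) - h1
  have k1 := key a b
  have k2 := key b a
  have p1 := PJL hB h3 a b x y (kb x y)
  have p2 := PJL hB h3 a y x b (kb x y)
  have q1 : asc y x (kb x y) = 0 := by
    have e1 : asc y x (kb x y) = - asc (kb x y) x y := s13 hB (kb x y) x y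
    rw [e1, R1a hB h3, a_zxx hB, kb_zero2, neg_zero]
  have r : ∀ u v, asc u v (kb x y) = - asc (kb x y) v u := fun u v => s13 hB (kb x y) v u
  rw [q1, jo_zero2, kb_skew y x, jo_neg1, kb_skew y b, jo_neg1] at p2
  rw [r y b, s23 hB (kb x y) y b, r a x] at p2
  rw [r b y, r b x, r a y, r a x] at p1
  simp only [jo_neg2, neg_neg] at p1 p2
  -- `s o T(a,b,s)`
  have m : jo (kb x y) (asc a b (kb x y)) =
      jo (kb a (kb x y)) (asc b x y) - jo (kb b (kb x y)) (asc a x y) := by
    have e : ∀ a b : B, jo (kb x y) (kb a (asc b x y)) = - jo (kb a (kb x y)) (asc b x y) := by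
      intro a b
      have e := ad_jo hB h3 a (kb x y) (asc b x y)
      rw [PJc hB h3, kb_zero2] at e
      linear_combination (norm := abel) - e
    rw [K3 hB h3, Fab hB h3, jo_add2, jo_sub2, PJc hB h3, e, e]
    abel
  have n : asc (jo (kb x y) (kb x y)) a b =
      jo (kb x y) (asc a b (kb x y)) + jo (kb x y) (asc a b (kb x y)) := by
    rw [T_jo1 hB, cyc' hB a b (kb x y)]
  have z : jo (kb x y) (asc a b (kb x y)) = 0 := by
    have p2' : jo (kb a x) (asc (kb x y) y b) + jo (kb b y) (asc (kb x y) x a) =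
      jo (kb x y) (asc a b (kb x y)) := by
      linear_combination (norm := abel) p2
    linear_combination (norm := abel) - m - k1 + k2 - p1 - (2 : ℤ) • p2'
  rw [n, z, add_zero]

end H66Z

end Pool.Agent.TP
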