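import Pool.Agent.Helper50_TP3.Base3
import Pool.Agent.Helper51_TP.Rules

/-!
# MP_ce3ba7_al, characteristic 3: rules NX and Z (helper66)

NX: if `[g,w] + ∑ (a_i,b_i,w) = 0` for all `w` then `∑ [a_i,b_i]` is in the nucleus.
Z: in a T-prime relatively free algebra of characteristic 3 with zero nucleus, every `g` with
`(g,a,b) = [g,[a,b]]` for all `a, b` is zero.
-/

set_option autoImplicit false
set_option linter.unusedSectionVars false
set_option linter.unusedVariables false

namespace Pool.Agent.TP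

namespace H66Z

open H67 B3

section nx
variable (B : Type) [NonUnitalNonAssocRing B]

/-- pairs `(∑ [a_i,b_i], w ↦ ∑ (a_i,b_i,w))` -/
def NP : AddSubgroup (B × (B → B)) :=
  AddSubgroup.closure {p | ∃ a b : B, p = (kb a b, fun w => asc a b w)}

variable {B}

theorem np_gen (a b : B) : (kb a b, fun w => asc a b w) ∈ NP B :=
  AddSubgroup.subset_closure ⟨a, b, rfl⟩

theorem np_K (hB : IsAlt B) (h3 : ∀ x : B, x + x + x = 0) (p : B × (B → B)) (hp : p ∈ NP B) :
    ∀ w x, p.2 (kb w x) = kb (p.2 w) x + kb w (p.2 x) + asc p.1 w x := by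
  refine AddSubgroup.closure_induction (p := fun p _ => ∀ w x, p.2 (kb w x) =
    kb (p.2 w) x + kb w (p.2 x) + asc p.1 w x) ?_ ?_ ?_ ?_ hp
  · rintro p ⟨a, b, rfl⟩ w x
    exact K3 hB h3 a b w x
  · intro w x
    simp [kb_zero1, kb_zero2, asc_zero1]
  · intro p q _ _ h1 h2 w x
    simp only [Prod.snd_add, Prod.fst_add, Pi.add_apply, h1 w x, h2 w x, kb_add1, kb_add2,
      asc_add1]
    abel
  · intro p _ h1 w x
    simp only [Prod.snd_neg, Prod.fst_neg, Pi.neg_apply, h1 w x, kb_neg1, kb_neg2, asc_neg1]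
    abel

/-- RULE NX -/
theorem nx (hB : IsAlt B) (h3 : ∀ x : B, x + x + x = 0) (h g : B)
    (hp : (h, fun w => kb g w) ∈ NP B) : ∀ w x, asc h w x = 0 := by
  intro w x
  have e := np_K hB h3 _ hp w x
  simp only at e
  rw [ad_kb hB h3] at e
  exact left_eq_add.mp e

end nx

section zid
variable {B : Type} [NonUnitalNonAssocRing B] (hB : IsAlt B) (h3 : ∀ x : B, x + x + x = 0)

/-- the condition of rule Z -/
def InZ (z : B) : Prop := ∀ a b : B, asc z a b = kb z (kb a b)

theorem inZ_add {z z' : B} (hz : InZ z) (hz' : InZ z') : InZ (z + z') := by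
  intro a b
  rw [asc_add1, hz, hz', kb_add1]

theorem inZ_zero : InZ (0 : B) := by
  intro a b
  rw [asc_zero1, kb_zero1]

theorem inZ_neg {z : B} (hz : InZ z) : InZ (-z) := by
  intro a b
  rw [asc_neg1, hz, kb_neg1]

include hB

theorem z_sq {z : B} (hz : InZ z) (b : B) : kb z (kb z b) = 0 := by
  rw [← hz, a_xxz hB]

theorem z_sq2 {z z' : B} (hz : InZ z) (hz' : InZ z') (b : B) :
    kb z (kb z' b) + kb z' (kb z b) = 0 := by
  have h := z_sq hB (inZ_add hz hz') b
  rw [kb_add1, kb_add1, kb_add2, kb_add2, z_sq hB hz, z_sq hB hz'] at h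
  linear_combination (norm := abel) h

include h3

/-- the generic part of the argument: `[z,z']` is in the nucleus -/
theorem z_nx {z z' : B} (hz : InZ z) (hz' : InZ z') : ∀ w x, asc (kb z z') w x = 0 := by
  refine nx hB h3 _ (- kb z z') ?_
  have e : (kb z z', fun w => kb (- kb z z') w) = (kb z z', fun w => asc z z' w) := by
    refine Prod.ext rfl (funext fun w => ?_)
    change kb (- kb z z') w = asc z z' w
    rw [kb_neg1, hz]
    have h1 := ad_kb hB h3 z z' w
    have h2 := z_sq2 hB hz hz' w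
    have h4 := h3 (kb z (kb z' w))
    linear_combination (norm := abel) h1 + h2 - h4
  rw [e]
  exact np_gen z z'

variable (hn : ∀ g : B, (∀ y z, asc g y z = 0) → g = 0)
include hn

theorem z_comm {z z' : B} (hz : InZ z) (hz' : InZ z') : kb z z' = 0 :=
  hn _ (z_nx hB h3 hz hz')

theorem z_t {z z' : B} (hz : InZ z) (hz' : InZ z') (b : B) : asc z z' b = 0 := by
  rw [hz]
  have h1 := ad_kb hB h3 z z' b
  have h2 := z_sq2 hB hz hz' b
  have h4 := h3 (kb z (kb z' b))
  rw [z_comm hB h3 hn hz hz', kb_zero1, zero_add] at h1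
  linear_combination (norm := abel) h4 - h1 - h2

omit hn in
theorem z_jo {z z' : B} (hz : InZ z) (hz' : InZ z') : InZ (jo z z') := by
  intro a b
  rw [T_jo1 hB, hz, hz', kb_skew (jo z z'), ad_jo hB h3, kb_skew z, kb_skew z', jo_neg2,
    jo_neg2, jo_comm z' (kb (kb a b) z)]
  abel

/-- `Z` is closed under the product -/
theorem z_mul {z z' : B} (hz : InZ z) (hz' : InZ z') : InZ (z * z') := by
  have e : z * z' = - jo z z' := by
    have h1 : kb z z' = 0 := z_comm hB h3 hn hz hz'
    have h2 := h3 (z * z')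
    unfold kb at h1
    unfold jo
    linear_combination (norm := abel) h2 - h1
  rw [e]
  exact inZ_neg (z_jo hB h3 hz hz')

omit hn in
/-- `[z,(a,b,c)] = 0` -/
theorem z_T {z : B} (hz : InZ z) (a b c : B) : kb z (asc a b c) = 0 := by
  have h1 := F3z hB h3 z a b c
  have h2 : ∀ a b, asc a b z = kb z (kb a b) := fun a b => by rw [← hz]; exact cyc hB z a b
  have h2' : ∀ a b, asc a z b = - kb z (kb a b) := fun a b => by rw [← hz]; exact s12 hB z a b
  have k1 := ad_asc hB h3 z a b c
  have k2 : ∀ a b c, asc (kb z a) b c = kb (kb z a) (kb b c) + kb z (asc b c a) := by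
    intro a b c
    have e1 : asc (kb b c) z a = kb z (kb a (kb b c)) := by
      rw [← hz]; exact cyc' hB _ _ _
    have e2 := ad_kb hB h3 (kb b c) z a
    rw [kb_skew (kb b c) (kb z a), kb_skew (kb b c) z, kb_skew (kb b c) a, kb_neg1, kb_neg2] at e2
    rw [K3' hB h3, h2, e1]
    linear_combination (norm := abel) e2
  have k3 := k2 a b c
  have k4 := k2 b c a
  have k5 := k2 c a b
  have e1 : asc a (kb z b) c = asc (kb z b) c a := (cyc hB a (kb z b) c).symm
  have e2 : asc a b (kb z c) = asc (kb z c) a b := (cyc' hB a b (kb z c)).symm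
  have e3 : asc c a b = asc a b c := cyc' hB _ _ _
  have e4 : asc b c a = asc a b c := cyc hB _ _ _
  have e5 : asc c z a = - kb z (kb c a) := by
    rw [s12 hB z c a, hz]
  rw [h2, e5, hz, kb_neg2] at h1
  rw [e1, e2, k3, k4, k5, e3, e4] at k1
  have j1 := ad_kb hB h3 a z (kb b c)
  have j2 := ad_kb hB h3 b z (kb c a)
  have j3 := ad_kb hB h3 c z (kb a b)
  rw [kb_skew a z, kb_neg1] at j1
  rw [kb_skew b z, kb_neg1] at j2
  rw [kb_skew c z, kb_neg1] at j3
  have j4 : kb z (kb a (kb b c)) + kb z (kb b (kb c a)) + kb z (kb c (kb a b)) = 0 := by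
    have j := jacobi hB h3 a b c
    rw [kb_skew (kb a b) c, kb_skew (kb b c) a, kb_skew (kb c a) b] at j
    have : kb a (kb b c) + kb b (kb c a) + kb c (kb a b) = 0 := by
      linear_combination (norm := abel) - j
    rw [← kb_add2, ← kb_add2, this, kb_zero2]
  linear_combination (norm := abel) - h1 - k1 - j1 - j2 - j3 - j4

omit hn in
/-- `Z` is closed under commutators with everything -/
theorem z_ad {z : B} (hz : InZ z) (c : B) : InZ (kb z c) := by
  intro a b
  have h2 : ∀ a b, asc a b z = kb z (kb a b) := fun a b => by rw [← hz]; exact cyc hB z a b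
  have e1 : asc (kb a b) z c = kb z (kb c (kb a b)) := by
    rw [← hz]; exact cyc' hB _ _ _
  have e2 := ad_kb hB h3 (kb a b) z c
  rw [kb_skew (kb a b) (kb z c), kb_skew (kb a b) z, kb_skew (kb a b) c, kb_neg1, kb_neg2] at e2
  rw [K3' hB h3, h2, e1, z_T hB h3 hz]
  linear_combination (norm := abel) e2

end zid

end H66Z

end Pool.Agent.TP
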